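import Pool.Agent.H73.TS.Targets

namespace Pool.Agent.H68.TS
open MeasureTheory Set Filter Topology Pool.Agent.H73.TS

theorem es_mono {f f' : ℝ → ℝ} (hf : ∀ x, HasDerivAt f (f' x) x) (h : ∀ x, 0 ≤ x → 0 ≤ f' x)
    {c : ℝ} (hc : 0 ≤ c) : f 0 ≤ f c := by
  have h1 : MonotoneOn f (Ici 0) := by
    refine monotoneOn_of_deriv_nonneg (convex_Ici 0)
      (fun x _ => (hf x).continuousAt.continuousWithinAt)
      (fun x _ => (hf x).differentiableAt.differentiableWithinAt) (fun x hx => ?_)
    rw [interior_Ici] at hx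
    rw [(hf x).deriv]
    exact h x (le_of_lt hx)
  exact h1 (mem_Ici.2 le_rfl) (mem_Ici.2 hc) hc

/-- Taylor polynomials of `exp (-u)` -/
noncomputable def esS (n : ℕ) (u : ℝ) : ℝ := ∑ k ∈ Finset.range n, (-u) ^ k / k.factorial

theorem es_der (n : ℕ) (u : ℝ) : HasDerivAt (esS (n + 1)) (-(esS n u)) u := by
  induction n with
  | zero =>
    have e : esS 1 = fun _ => (1 : ℝ) := by
      funext u
      simp [esS]
    rw [e]
    have e2 : -(esS 0 u) = 0 := by simp [esS]
    rw [e2]
    exact hasDerivAt_const u 1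
  | succ n ih =>
    have e : esS (n + 1 + 1) = fun u => esS (n + 1) u + (-u) ^ (n + 1) / (n + 1).factorial := by
      funext u
      exact Finset.sum_range_succ _ _
    rw [e]
    have h1 : HasDerivAt (fun u : ℝ => (-u) ^ (n + 1) / (n + 1).factorial)
        (((n + 1 : ℕ) * (-u) ^ n * (-1)) / (n + 1).factorial) u := by
      have := ((hasDerivAt_id u).neg.pow (n + 1)).div_const ((n + 1).factorial : ℝ)
      simpa using this
    refine (ih.add h1).congr_deriv ?_
    have e3 : esS (n + 1) u = esS n u + (-u) ^ n / n.factorial := Finset.sum_range_succ _ _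
    rw [e3, Nat.factorial_succ]
    have h2 : ((n + 1 : ℕ) : ℝ) ≠ 0 := by positivity
    have h3 : (n.factorial : ℝ) ≠ 0 := by positivity
    push_cast at h2 ⊢
    field_simp
    ring

theorem es_bound (n : ℕ) : ∀ u : ℝ, 0 ≤ u → 0 ≤ (-1) ^ n * (Real.exp (-u) - esS n u) := by
  induction n with
  | zero =>
    intro u _
    simp [esS, (Real.exp_pos _).le]
  | succ n ih =>
    intro u hu
    have hd : ∀ x, HasDerivAt (fun u => (-1 : ℝ) ^ (n + 1) * (Real.exp (-u) - esS (n + 1) u))
        ((-1) ^ n * (Real.exp (-x) - esS n x)) x := by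
      intro x
      have h1 : HasDerivAt (fun u : ℝ => Real.exp (-u)) (-Real.exp (-x)) x := by
        have := (hasDerivAt_id x).neg.exp
        simpa using this
      refine ((h1.sub (es_der n x)).const_mul _).congr_deriv ?_
      ring
    have h2 := es_mono hd (fun x hx => ih x hx) hu
    refine le_trans (le_of_eq ?_) h2
    have e : esS (n + 1) 0 = 1 := by
      unfold esS
      rw [Finset.sum_range_succ']
      simp
    simp only [e, neg_zero, Real.exp_zero, sub_self, mul_zero]

theorem es (hQB : T_QB) : T_ES := by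
  obtain ⟨her, hodd, -⟩ := hQB
  have ha0 : 0 < Real.pi := Real.pi_pos
  set a := Real.pi with ha
  have er0 : er 0 = 0 := by
    unfold er
    exact intervalIntegral.integral_same
  set Q : ℝ → ℝ := fun c => c - a * c ^ 3 / 3 + a ^ 2 * c ^ 5 / 10 - a ^ 3 * c ^ 7 / 42 +
    a ^ 4 * c ^ 9 / 216 - a ^ 5 * c ^ 11 / 1320 + a ^ 6 * c ^ 13 / 9360 -
    a ^ 7 * c ^ 15 / 75600 with hQ
  have hS : ∀ t : ℝ, esS 8 t = 1 - t + t ^ 2 / 2 - t ^ 3 / 6 + t ^ 4 / 24 - t ^ 5 / 120 +
      t ^ 6 / 720 - t ^ 7 / 5040 := by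
    intro t
    simp only [esS, Finset.sum_range_succ, Finset.sum_range_zero, Nat.factorial]
    push_cast
    ring
  have hE : ∀ t : ℝ, 0 ≤ t → esS 8 t ≤ Real.exp (-t) := fun t ht => by
    have := es_bound 8 t ht
    have e : ((-1 : ℝ)) ^ 8 = 1 := by norm_num
    rw [e, one_mul] at this
    linarith
  have hQd : ∀ c, HasDerivAt Q (esS 8 (a * c ^ 2)) c := by
    intro c
    have h := ((((((((hasDerivAt_id c).sub (((hasDerivAt_pow 3 c).const_mul a).div_const 3)).add
      (((hasDerivAt_pow 5 c).const_mul (a ^ 2)).div_const 10)).sub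
      (((hasDerivAt_pow 7 c).const_mul (a ^ 3)).div_const 42)).add
      (((hasDerivAt_pow 9 c).const_mul (a ^ 4)).div_const 216)).sub
      (((hasDerivAt_pow 11 c).const_mul (a ^ 5)).div_const 1320)).add
      (((hasDerivAt_pow 13 c).const_mul (a ^ 6)).div_const 9360)).sub
      (((hasDerivAt_pow 15 c).const_mul (a ^ 7)).div_const 75600))
    refine h.congr_deriv ?_
    rw [hS]
    push_cast
    ring
  have hQle : ∀ c, 0 ≤ c → Q c ≤ er c := by
    intro c hc
    have hd : ∀ x, HasDerivAt (fun c => er c - Q c)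
        (Real.exp (-(a * x ^ 2)) - esS 8 (a * x ^ 2)) x := fun x => (her x).sub (hQd x)
    have h := es_mono hd (fun x _ => sub_nonneg.2 (hE _ (by positivity))) hc
    have e : er 0 - Q 0 = 0 := by
      rw [er0]
      simp [hQ]
    rw [e] at h
    linarith
  intro c hc
  constructor
  · have h1 := mul_le_mul_of_nonneg_left (hQle c hc) (by positivity : 0 ≤ a * c)
    refine le_trans (le_of_eq ?_) h1
    simp only [hQ, ep]
    ring
  · have e : (qf c + qf (-c)) / 2 - 1 = Real.exp (-(a * c ^ 2)) + 2 * a * c * er c - 1 := by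
      unfold qf
      rw [hodd, neg_sq]
      ring
    rw [e]
    have hd : ∀ x, HasDerivAt (fun c => Real.exp (-(a * c ^ 2)) + 2 * a * c * er c - 1 -
        sp (a * c ^ 2)) (2 * a * (er x - Q x)) x := by
      intro x
      have h1 : HasDerivAt (fun c : ℝ => Real.exp (-(a * c ^ 2)))
          (Real.exp (-(a * x ^ 2)) * (-(a * (2 * x)))) x := by
        have := ((hasDerivAt_pow 2 x).const_mul a).neg.exp
        simpa using this
      have h2 : HasDerivAt (fun c : ℝ => 2 * a * c * er c)
          (2 * a * er x + 2 * a * x * Real.exp (-(a * x ^ 2))) x := by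
        have h4 : HasDerivAt (fun c : ℝ => 2 * a * c) (2 * a) x := by
          simpa using (hasDerivAt_id x).const_mul (2 * a)
        exact h4.mul (her x)
      have h3 : HasDerivAt (fun c : ℝ => sp (a * c ^ 2)) (2 * a * Q x) x := by
        have e3 : (fun c : ℝ => sp (a * c ^ 2)) = fun c => a * c ^ 2 - a ^ 2 * c ^ 4 / 6 +
            a ^ 3 * c ^ 6 / 30 - a ^ 4 * c ^ 8 / 168 + a ^ 5 * c ^ 10 / 1080 -
            a ^ 6 * c ^ 12 / 7920 + a ^ 7 * c ^ 14 / 65520 - a ^ 8 * c ^ 16 / 604800 := by
          funext c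
          simp only [sp]
          ring
        rw [e3]
        have h := ((((((((hasDerivAt_pow 2 x).const_mul a).sub
          (((hasDerivAt_pow 4 x).const_mul (a ^ 2)).div_const 6)).add
          (((hasDerivAt_pow 6 x).const_mul (a ^ 3)).div_const 30)).sub
          (((hasDerivAt_pow 8 x).const_mul (a ^ 4)).div_const 168)).add
          (((hasDerivAt_pow 10 x).const_mul (a ^ 5)).div_const 1080)).sub
          (((hasDerivAt_pow 12 x).const_mul (a ^ 6)).div_const 7920)).add
          (((hasDerivAt_pow 14 x).const_mul (a ^ 7)).div_const 65520)).sub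
          (((hasDerivAt_pow 16 x).const_mul (a ^ 8)).div_const 604800)
        refine h.congr_deriv ?_
        simp only [hQ]
        push_cast
        ring
      refine (((h1.add h2).sub_const 1).sub h3).congr_deriv ?_
      ring
    have h := es_mono hd (fun x hx => mul_nonneg (by positivity)
      (sub_nonneg.2 (hQle x hx))) hc
    have e0 : Real.exp (-(a * (0 : ℝ) ^ 2)) + 2 * a * 0 * er 0 - 1 - sp (a * 0 ^ 2) = 0 := by
      rw [er0]
      simp [sp]
    rw [e0] at h
    linarith

end Pool.Agent.H68.TS
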