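import Pool.Agent.H73.TS.Targets

namespace Pool.Agent.H68.TS
open MeasureTheory Set Filter Topology Pool.Agent.H73.TS

theorem er_tendsto : Tendsto er atTop (𝓝 (1 / 2)) := by
  have h1 : IntegrableOn (fun s : ℝ => Real.exp (-Real.pi * s ^ 2)) (Ioi 0) :=
    (integrable_exp_neg_mul_sq Real.pi_pos).integrableOn
  have h2 := intervalIntegral_tendsto_integral_Ioi 0 h1 tendsto_id
  have h3 : ∫ s in Ioi (0 : ℝ), Real.exp (-Real.pi * s ^ 2) = 1 / 2 := by
    rw [integral_gaussian_Ioi, div_self Real.pi_pos.ne', Real.sqrt_one]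
  rw [h3] at h2
  refine h2.congr fun c => ?_
  unfold er
  refine intervalIntegral.integral_congr fun s _ => ?_
  simp only [neg_mul]

theorem mi (hQB : T_QB) : T_MI := by
  intro c hc
  obtain ⟨her, -, hlt, -⟩ := hQB
  set a := Real.pi with ha
  have ha0 : 0 < a := Real.pi_pos
  set N : ℝ → ℝ := fun c => 4 * a ^ 2 * c ^ 4 + 18 * a * c ^ 2 + 8 with hN
  set D : ℝ → ℝ := fun c => 8 * a ^ 3 * c ^ 5 + 40 * a ^ 2 * c ^ 3 + 30 * a * c with hD
  set G : ℝ → ℝ := fun c => Real.exp (-(a * c ^ 2)) * (N c / D c) - (1 / 2 - er c) with hG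
  have hDpos : ∀ c, 0 < c → 0 < D c := fun c hc => by
    simp only [hD]
    positivity
  have hNpos : ∀ c, 0 < N c := fun c => by
    simp only [hN]
    positivity
  have hder : ∀ c, 0 < c → HasDerivAt G (Real.exp (-(a * c ^ 2)) * (-(240 * a) / (D c) ^ 2)) c := by
    intro c hc
    have h1 : HasDerivAt (fun c : ℝ => Real.exp (-(a * c ^ 2)))
        (Real.exp (-(a * c ^ 2)) * (-(a * (2 * c)))) c := by
      have := ((hasDerivAt_pow 2 c).const_mul a).neg.exp
      simpa using this
    have h2 : HasDerivAt N (16 * a ^ 2 * c ^ 3 + 36 * a * c) c := by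
      have := (((hasDerivAt_pow 4 c).const_mul (4 * a ^ 2)).add
        ((hasDerivAt_pow 2 c).const_mul (18 * a))).add_const 8
      refine this.congr_deriv ?_
      push_cast
      ring
    have h3 : HasDerivAt D (40 * a ^ 3 * c ^ 4 + 120 * a ^ 2 * c ^ 2 + 30 * a) c := by
      have := (((hasDerivAt_pow 5 c).const_mul (8 * a ^ 3)).add
        ((hasDerivAt_pow 3 c).const_mul (40 * a ^ 2))).add ((hasDerivAt_id c).const_mul (30 * a))
      refine this.congr_deriv ?_
      push_cast
      ring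
    have h4 := (h1.mul (h2.div h3 (hDpos c hc).ne')).sub ((her c).const_sub (1 / 2))
    refine h4.congr_deriv ?_
    have hDc := (hDpos c hc).ne'
    have key : D c ^ 2 - 2 * a * c * N c * D c + (16 * a ^ 2 * c ^ 3 + 36 * a * c) * D c -
        N c * (40 * a ^ 3 * c ^ 4 + 120 * a ^ 2 * c ^ 2 + 30 * a) = -(240 * a) := by
      simp only [hN, hD]
      ring
    rw [← key, Pi.div_apply]
    field_simp
    ring
  have hanti : AntitoneOn G (Ioi 0) := by
    refine antitoneOn_of_deriv_nonpos (convex_Ioi 0)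
      (fun x hx => (hder x hx).continuousAt.continuousWithinAt)
      (fun x hx => ?_) (fun x hx => ?_)
    · rw [interior_Ioi] at hx
      exact (hder x hx).differentiableAt.differentiableWithinAt
    · rw [interior_Ioi] at hx
      rw [(hder x hx).deriv]
      refine mul_nonpos_of_nonneg_of_nonpos (Real.exp_pos _).le ?_
      exact div_nonpos_of_nonpos_of_nonneg (by linarith) (sq_nonneg _)
  have hlim : Tendsto (fun b => -(1 / 2 - er b)) atTop (𝓝 0) := by
    have := (er_tendsto.const_sub (1 / 2)).neg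
    simpa using this
  have hG0 : 0 ≤ G c := by
    refine le_of_tendsto hlim ?_
    filter_upwards [eventually_ge_atTop c] with b hb
    have hb0 : 0 < b := lt_of_lt_of_le hc hb
    have h1 : G b ≤ G c := hanti hc hb0 hb
    have h2 : 0 ≤ Real.exp (-(a * b ^ 2)) * (N b / D b) :=
      mul_nonneg (Real.exp_pos _).le (div_pos (hNpos b) (hDpos b hb0)).le
    simp only [hG] at h1 ⊢
    linarith
  have h5 : (1 / 2 - er c) * D c ≤ Real.exp (-(a * c ^ 2)) * N c := by
    have h6 : 1 / 2 - er c ≤ Real.exp (-(a * c ^ 2)) * (N c / D c) := by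
      simp only [hG] at hG0
      linarith
    calc (1 / 2 - er c) * D c ≤ Real.exp (-(a * c ^ 2)) * (N c / D c) * D c :=
          mul_le_mul_of_nonneg_right h6 (hDpos c hc).le
      _ = Real.exp (-(a * c ^ 2)) * N c := by
          have hDc := (hDpos c hc).ne'
          field_simp
  have e1 : D c = (2 * a * c) * ((2 * a * c ^ 2) ^ 2 + 10 * (2 * a * c ^ 2) + 15) := by
    simp only [hD]
    ring
  have e2 : N c = (2 * a * c ^ 2) ^ 2 + 9 * (2 * a * c ^ 2) + 8 := by
    simp only [hN]
    ring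
  rw [e1, e2] at h5
  calc _ = (1 / 2 - er c) * ((2 * a * c) * ((2 * a * c ^ 2) ^ 2 + 10 * (2 * a * c ^ 2) + 15)) := by
        ring
    _ ≤ _ := h5

end Pool.Agent.H68.TS
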